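import Pool.Agent.Helper64.MH.Defs

/-!
# The two-cone inequality: assembly
-/

set_option autoImplicit false

noncomputable section

namespace MH

open MeasureTheory Matrix Set
open scoped ENNReal Pointwise

variable {d : ℕ} {τ : Type} [Fintype τ]

/-- the measure with exponential density -/
def nu (e : Fin d → ℝ) : Measure (Fin d → ℝ) :=
  (volume : Measure (Fin d → ℝ)).withDensity fun x => ENNReal.ofReal (Real.exp (-(e ⬝ᵥ x)))

lemma W_eq (e : Fin d → ℝ) (X : Set (Fin d → ℝ)) : W e X = nu e X := by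
  unfold W nu
  rw [withDensity_apply']

lemma nu_ac (e : Fin d → ℝ) : nu e ≪ volume := withDensity_absolutelyContinuous _ _

lemma W_mono (e : Fin d → ℝ) {X Y : Set (Fin d → ℝ)} (h : X ⊆ Y) : W e X ≤ W e Y := by
  rw [W_eq, W_eq]; exact measure_mono h

lemma cone_mono (v : τ → Fin d → ℝ) {S T : Set τ} (h : S ⊆ T) : cone v S ⊆ cone v T := by
  rintro x ⟨l, h1, h2, h3⟩
  exact ⟨l, h1, fun t ht => h2 t fun hs => ht (h hs), h3⟩

lemma cone_smul_add (v : τ → Fin d → ℝ) {S : Set τ} {x y : Fin d → ℝ} {r : ℝ} (hr : 0 ≤ r)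
    (hx : x ∈ cone v S) (hy : y ∈ cone v S) : r • x + y ∈ cone v S := by
  obtain ⟨l, h1, h2, h3⟩ := hx
  obtain ⟨m, g1, g2, g3⟩ := hy
  refine ⟨fun t => r * l t + m t, fun t => add_nonneg (mul_nonneg hr (h1 t)) (g1 t),
    fun t ht => by simp [h2 t ht, g2 t ht], ?_⟩
  rw [h3, g3, Finset.smul_sum, ← Finset.sum_add_distrib]
  refine Finset.sum_congr rfl fun t _ => ?_
  rw [add_smul, mul_smul]

lemma cell_closed {T : Type} (q : T → Fin d → ℝ) (c : T → ℝ) (t : T) : IsClosed (cell q c t) := by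
  have : cell q c t = ⋂ s, {x | q t ⬝ᵥ x + c t ≤ q s ⬝ᵥ x + c s} := by
    ext x; simp [cell]
  rw [this]
  refine isClosed_iInter fun s => isClosed_le ?_ ?_
  · unfold dotProduct; fun_prop
  · unfold dotProduct; fun_prop

theorem cone_ineq (hGEN : S_GEN) (hLP : S_LP) (hFINV : S_FINV) (hOT : S_OT) (hCELLT : S_CELLT)
    (hPOSW : S_POSW) (hSEP : S_SEP) (hSIGC : S_SIGC) (hSUMS : S_SUMS) : S_CONE := by
  intro τ _ d v e b he
  obtain ⟨h, hgen⟩ := hGEN τ d v
  set A : Set (Fin d → ℝ) := cone v b ∩ cone v bᶜ with hA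
  by_cases hA0 : W e A = 0
  · rw [hA0]; simp
  have hAfin : W e A ≠ ⊤ := ne_top_of_le_ne_top (hPOSW τ d v e b he).1 (W_mono e inter_subset_left)
  have hfin := hFINV τ d v h
  let T : Type := {q : Fin d → ℝ // Vert v h q}
  have : Fintype T := hfin.fintype
  let q : T → Fin d → ℝ := fun t => t.1
  have hq : Function.Injective q := Subtype.val_injective
  have hV : ∀ t : T, Vert v h (q t) := fun t => t.2
  -- covering
  have hcov : W e (cone v univ) ≤ ∑ t : T, W e (cone v (tight v h (q t))) := by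
    have hN := hLP τ d v e h he hgen
    have hsub : cone v univ ⊆ (⋃ t : T, cone v (tight v h (q t))) ∪
        {x | x ∈ cone v Set.univ ∧ ¬ ∃ q, Vert v h q ∧ x ∈ cone v (tight v h q)} := by
      intro x hx
      by_cases hh : ∃ q, Vert v h q ∧ x ∈ cone v (tight v h q)
      · obtain ⟨q0, h1, h2⟩ := hh
        exact Or.inl (mem_iUnion.2 ⟨⟨q0, h1⟩, h2⟩)
      · exact Or.inr ⟨hx, hh⟩
    calc W e (cone v univ) ≤ W e ((⋃ t : T, cone v (tight v h (q t))) ∪
        {x | x ∈ cone v Set.univ ∧ ¬ ∃ q, Vert v h q ∧ x ∈ cone v (tight v h q)}) := W_mono e hsub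
      _ ≤ W e (⋃ t : T, cone v (tight v h (q t))) +
        W e {x | x ∈ cone v Set.univ ∧ ¬ ∃ q, Vert v h q ∧ x ∈ cone v (tight v h q)} := by
          rw [W_eq, W_eq, W_eq]; exact measure_union_le _ _
      _ = W e (⋃ t : T, cone v (tight v h (q t))) := by
          rw [W_eq e {x | _}, nu_ac e hN, add_zero]
      _ ≤ ∑ t : T, W e (cone v (tight v h (q t))) := by
          simp only [W_eq]
          exact measure_iUnion_fintype_le _ _
  by_cases hT : Nonempty T
  swap
  · rw [not_nonempty_iff] at hT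
    have h0 : W e (cone v univ) = 0 := by
      refine le_antisymm (hcov.trans ?_) zero_le
      simp
    rw [h0]; simp
  -- masses
  set P : ℝ := (W e A).toReal with hP
  have hPpos : 0 < P := ENNReal.toReal_pos hA0 hAfin
  set s : T → ℝ := fun t => (W e (cone v (tight v h (q t)))).toReal with hs
  have hspos : ∀ t, 0 < s t := fun t =>
    ENNReal.toReal_pos ((hPOSW τ d v e _ he).2.1 (hV t).2) (hPOSW τ d v e _ he).1
  set S : ℝ := ∑ t, s t with hS
  have hSpos : 0 < S := Finset.sum_pos (fun t _ => hspos t) Finset.univ_nonempty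
  set μ : Measure (Fin d → ℝ) :=
    (volume.restrict A).withDensity fun x => ENNReal.ofReal (Real.exp (-(e ⬝ᵥ x))) with hμ
  have hμuniv : μ univ = W e A := by
    rw [hμ, withDensity_apply _ MeasurableSet.univ, Measure.restrict_univ]
    rfl
  have : IsFiniteMeasure μ := ⟨by rw [hμuniv]; exact lt_top_iff_ne_top.2 hAfin⟩
  have hμac : μ ≪ volume :=
    (withDensity_absolutelyContinuous _ _).trans (Measure.absolutelyContinuous_of_le
      Measure.restrict_le_self)
  have hμint : Integrable (fun x => ‖x‖) μ := by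
    have h1 := (hPOSW τ d v e b he).2.2
    refine h1.mono_measure ?_
    have hle : (volume : Measure (Fin d → ℝ)).restrict A ≤ volume.restrict (cone v b) :=
      Measure.restrict_mono inter_subset_left le_rfl
    refine Measure.le_iff.2 fun s hs => ?_
    rw [withDensity_apply _ hs, withDensity_apply _ hs]
    exact lintegral_mono' (Measure.restrict_mono le_rfl hle) le_rfl
  set m : T → ℝ := fun t => P * s t / S with hm
  have hmpos : ∀ t, 0 < m t := fun t => div_pos (mul_pos hPpos (hspos t)) hSpos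
  have hmsum : ∑ t, m t = (μ univ).toReal := by
    rw [hμuniv, ← hP, hm, ← Finset.sum_div, ← Finset.mul_sum, ← hS]
    field_simp
  obtain ⟨c, hc⟩ := hOT d T μ hμac hμint q hq m hmpos hmsum
  -- the cells
  have hcell : ∀ t, (W e (A ∩ cell q c t)).toReal = m t := by
    intro t
    rw [← hc t, hμ, withDensity_apply _ (cell_closed q c t).measurableSet,
      Measure.restrict_restrict (cell_closed q c t).measurableSet, inter_comm]
    rfl
  set X : T → Set (Fin d → ℝ) := fun t =>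
    (5 / 8 : ℝ) • (A ∩ cell q c t) + cone v (tight v h (q t) ∩ b) with hX
  set Y : T → Set (Fin d → ℝ) := fun t =>
    (5 / 8 : ℝ) • (A ∩ cell q c t) + cone v (tight v h (q t) ∩ bᶜ) with hY
  have hXsub : ∀ t, X t ⊆ cone v b := by
    rintro t _ ⟨_, ⟨x, hx, rfl⟩, y, hy, rfl⟩
    exact cone_smul_add v (by norm_num) hx.1.1 (cone_mono v inter_subset_right hy)
  have hYsub : ∀ t, Y t ⊆ cone v bᶜ := by
    rintro t _ ⟨_, ⟨x, hx, rfl⟩, y, hy, rfl⟩
    exact cone_smul_add v (by norm_num) hx.1.2 (cone_mono v inter_subset_right hy)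
  have hXm : ∀ t, MeasurableSet (X t) := fun t =>
    (hSIGC τ d v b bᶜ (tight v h (q t) ∩ b) (cell q c t) (cell_closed q c t)).2.2.2
  have hYm : ∀ t, MeasurableSet (Y t) := fun t =>
    (hSIGC τ d v b bᶜ (tight v h (q t) ∩ bᶜ) (cell q c t) (cell_closed q c t)).2.2.2
  have key : ∀ (b' : Set τ) (Z : T → Set (Fin d → ℝ)) (C : Set (Fin d → ℝ)),
      (∀ t, Z t ⊆ (5 / 8 : ℝ) • cell q c t + cone v (tight v h (q t) ∩ b')) →
      (∀ t, MeasurableSet (Z t)) → (∀ t, Z t ⊆ C) → ∑ t, W e (Z t) ≤ W e C := by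
    intro b' Z C h1 h2 h3
    have hd : Pairwise (Function.onFun (AEDisjoint (nu e)) Z) := by
      intro s t hst
      refine nu_ac e (measure_mono_null (inter_subset_inter (h1 s) (h1 t)) ?_)
      exact hSEP τ d v h b' T q c s t (fun hh => hst (hq hh)) (hV s) (hV t)
    calc ∑ t, W e (Z t) = nu e (⋃ t, Z t) := by
          rw [measure_iUnion₀ hd (fun t => (h2 t).nullMeasurableSet), tsum_fintype]
          exact Finset.sum_congr rfl fun t _ => W_eq e _
      _ ≤ nu e C := measure_mono (iUnion_subset h3)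
      _ = W e C := (W_eq e C).symm
  have hXsum : ∑ t, W e (X t) ≤ W e (cone v b) := by
    refine key b X _ (fun t => ?_) hXm hXsub
    exact add_subset_add_right (smul_set_mono inter_subset_right)
  have hYsum : ∑ t, W e (Y t) ≤ W e (cone v bᶜ) := by
    refine key bᶜ Y _ (fun t => ?_) hYm hYsub
    exact add_subset_add_right (smul_set_mono inter_subset_right)
  have hXfin : ∀ t, W e (X t) ≠ ⊤ := fun t =>
    ne_top_of_le_ne_top (hPOSW τ d v e b he).1 (W_mono e (hXsub t))
  have hYfin : ∀ t, W e (Y t) ≠ ⊤ := fun t =>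
    ne_top_of_le_ne_top (hPOSW τ d v e bᶜ he).1 (W_mono e (hYsub t))
  have hk0 : (0 : ℝ) ≤ (3125 / 8192 : ℝ) ^ d := by positivity
  have hmain := hSUMS T (fun t => (W e (X t)).toReal) (fun t => (W e (Y t)).toReal) s m
    ((3125 / 8192 : ℝ) ^ d) P hk0 hPpos (fun _ => ENNReal.toReal_nonneg)
    (fun _ => ENNReal.toReal_nonneg) hspos (fun t => rfl) (by
      intro t
      have hsig : IsSigmaCompact (A ∩ cell q c t) :=
        (hSIGC τ d v b bᶜ b (cell q c t) (cell_closed q c t)).2.1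
      have h1 := hCELLT τ d v e b (tight v h (q t)) (A ∩ cell q c t) he (hgen (q t)) (hV t).2 hsig
      have h2 := ENNReal.toReal_mono (by
        exact ENNReal.pow_ne_top (ENNReal.mul_ne_top (hXfin t) (hYfin t))) h1
      rw [ENNReal.toReal_mul, ENNReal.toReal_mul, ENNReal.toReal_pow, ENNReal.toReal_pow,
        ENNReal.toReal_pow, ENNReal.toReal_mul, hcell t, kk, ENNReal.toReal_ofReal hk0] at h2
      exact h2)
  have hfin1 : W e (cone v univ) ≠ ⊤ := (hPOSW τ d v e univ he).1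
  have hU : (W e (cone v univ)).toReal ≤ S := by
    have hne : ∑ t : T, W e (cone v (tight v h (q t))) ≠ ⊤ := by
      refine (ENNReal.sum_lt_top.2 fun t _ => ?_).ne
      exact lt_top_iff_ne_top.2 (hPOSW τ d v e _ he).1
    refine (ENNReal.toReal_mono hne hcov).trans (le_of_eq ?_)
    rw [ENNReal.toReal_sum fun t _ => (hPOSW τ d v e _ he).1]
  have hXs : ∑ t, (W e (X t)).toReal ≤ (W e (cone v b)).toReal := by
    rw [← ENNReal.toReal_sum fun t _ => hXfin t]
    exact ENNReal.toReal_mono (hPOSW τ d v e b he).1 hXsum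
  have hYs : ∑ t, (W e (Y t)).toReal ≤ (W e (cone v bᶜ)).toReal := by
    rw [← ENNReal.toReal_sum fun t _ => hYfin t]
    exact ENNReal.toReal_mono (hPOSW τ d v e bᶜ he).1 hYsum
  have hX0 : 0 ≤ ∑ t, (W e (X t)).toReal := Finset.sum_nonneg fun _ _ => ENNReal.toReal_nonneg
  have hY0 : 0 ≤ ∑ t, (W e (Y t)).toReal := Finset.sum_nonneg fun _ _ => ENNReal.toReal_nonneg
  have hreal : (3125 / 8192 : ℝ) ^ d * P ^ 5 * (W e (cone v univ)).toReal ^ 3 ≤
      ((W e (cone v b)).toReal * (W e (cone v bᶜ)).toReal) ^ 4 := by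
    calc (3125 / 8192 : ℝ) ^ d * P ^ 5 * (W e (cone v univ)).toReal ^ 3
        ≤ (3125 / 8192 : ℝ) ^ d * P ^ 5 * S ^ 3 := by
          refine mul_le_mul_of_nonneg_left ?_ (by positivity)
          exact pow_le_pow_left₀ ENNReal.toReal_nonneg hU 3
      _ ≤ ((∑ t, (W e (X t)).toReal) * ∑ t, (W e (Y t)).toReal) ^ 4 := hmain
      _ ≤ ((W e (cone v b)).toReal * (W e (cone v bᶜ)).toReal) ^ 4 := by
          refine pow_le_pow_left₀ (mul_nonneg hX0 hY0) ?_ 4
          exact mul_le_mul hXs hYs hY0 ENNReal.toReal_nonneg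
  have e1 : kk d * W e A ^ 5 * W e (cone v univ) ^ 3 =
      ENNReal.ofReal ((3125 / 8192 : ℝ) ^ d * P ^ 5 * (W e (cone v univ)).toReal ^ 3) := by
    rw [ENNReal.ofReal_mul (by positivity), ENNReal.ofReal_mul hk0,
      ENNReal.ofReal_pow hPpos.le, ENNReal.ofReal_pow ENNReal.toReal_nonneg, hP,
      ENNReal.ofReal_toReal hAfin, ENNReal.ofReal_toReal hfin1]
    rfl
  have e2 : (W e (cone v b) * W e (cone v bᶜ)) ^ 4 =
      ENNReal.ofReal (((W e (cone v b)).toReal * (W e (cone v bᶜ)).toReal) ^ 4) := by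
    rw [ENNReal.ofReal_pow (mul_nonneg ENNReal.toReal_nonneg ENNReal.toReal_nonneg),
      ENNReal.ofReal_mul ENNReal.toReal_nonneg, ENNReal.ofReal_toReal (hPOSW τ d v e b he).1,
      ENNReal.ofReal_toReal (hPOSW τ d v e bᶜ he).1]
  rw [e1, e2]
  exact ENNReal.ofReal_le_ofReal hreal

end MH

end
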