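import Mathlib

/-!
# Definitions for the two-body inequality and the `(5/2)ⁿ` bound of the Mahler volume
-/

set_option autoImplicit false

noncomputable section

namespace MH

open MeasureTheory Matrix
open scoped ENNReal Pointwise

/-- the constant `(5⁵/2¹³)^d` -/
def kk (d : ℕ) : ℝ≥0∞ := ENNReal.ofReal ((3125 / 8192) ^ d)

/-- exponential weight of a set, `∫_X exp (-⟨e, x⟩) dx` -/
def W {d : ℕ} (e : Fin d → ℝ) (X : Set (Fin d → ℝ)) : ℝ≥0∞ :=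
  ∫⁻ x in X, ENNReal.ofReal (Real.exp (-(e ⬝ᵥ x)))

/-- the cone spanned by the vectors `v t`, `t ∈ T` -/
def cone {τ : Type} [Fintype τ] {d : ℕ} (v : τ → Fin d → ℝ) (T : Set τ) : Set (Fin d → ℝ) :=
  {x | ∃ l : τ → ℝ, (∀ t, 0 ≤ l t) ∧ (∀ t, t ∉ T → l t = 0) ∧ x = ∑ t, l t • v t}

/-- heights in general position: the vectors which are tight for a functional are independent -/
def Gen {τ : Type} [Fintype τ] {d : ℕ} (v : τ → Fin d → ℝ) (h : τ → ℝ) : Prop :=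
  ∀ q : Fin d → ℝ, LinearIndependent ℝ (fun t : {t // q ⬝ᵥ v t = h t} => v t)

/-- the tight set of a functional -/
def tight {τ : Type} {d : ℕ} (v : τ → Fin d → ℝ) (h : τ → ℝ) (q : Fin d → ℝ) : Set τ :=
  {t | q ⬝ᵥ v t = h t}

/-- vertices of the dual polyhedron -/
def Vert {τ : Type} {d : ℕ} (v : τ → Fin d → ℝ) (h : τ → ℝ) (q : Fin d → ℝ) : Prop :=
  (∀ t, h t ≤ q ⬝ᵥ v t) ∧ Submodule.span ℝ (v '' tight v h q) = ⊤

/-- weight `∫_X exp (-(Σ x_i + Σ u_j))` of a set in `ℝ^I × ℝ^J` -/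
def w {I J : Type} [Fintype I] [Fintype J] (X : Set ((I → ℝ) × (J → ℝ))) : ℝ≥0∞ :=
  ∫⁻ z in X, ENNReal.ofReal (Real.exp (-(∑ i, z.1 i + ∑ j, z.2 j)))

/-- `(5/8) A + ([0,∞)^I × 0)` -/
def upL {I J : Type} (A : Set ((I → ℝ) × (J → ℝ))) : Set ((I → ℝ) × (J → ℝ)) :=
  {z | ∃ p ∈ A, (∀ i, 5 / 8 * p.1 i ≤ z.1 i) ∧ ∀ j, z.2 j = 5 / 8 * p.2 j}

/-- `(5/8) A + (0 × [0,∞)^J)` -/
def upR {I J : Type} (A : Set ((I → ℝ) × (J → ℝ))) : Set ((I → ℝ) × (J → ℝ)) :=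
  {z | ∃ p ∈ A, (∀ i, z.1 i = 5 / 8 * p.1 i) ∧ ∀ j, 5 / 8 * p.2 j ≤ z.2 j}

/-- the power cell of the index `t` -/
def cell {d : ℕ} {T : Type} (q : T → Fin d → ℝ) (c : T → ℝ) (t : T) : Set (Fin d → ℝ) :=
  {x | ∀ s, q t ⬝ᵥ x + c t ≤ q s ⬝ᵥ x + c s}

/-- convex bodies with the origin in the interior -/
def Bd {n : ℕ} (K : Set (Fin n → ℝ)) : Prop :=
  Convex ℝ K ∧ IsCompact K ∧ (0 : Fin n → ℝ) ∈ interior K

/-- the polar body -/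
def pol {n : ℕ} (K : Set (Fin n → ℝ)) : Set (Fin n → ℝ) := {y | ∀ x ∈ K, x ⬝ᵥ y ≤ 1}

/-- the support function -/
def hs {n : ℕ} (K : Set (Fin n → ℝ)) (y : Fin n → ℝ) : ℝ :=
  sSup ((fun x : Fin n → ℝ => x ⬝ᵥ y) '' K)

/-- the Mahler volume in the integral form -/
def Mi {n : ℕ} (K : Set (Fin n → ℝ)) : ℝ≥0∞ :=
  volume K * ∫⁻ y : Fin n → ℝ, ENNReal.ofReal (Real.exp (-(hs K y)))

/-! ### Statements of the parts -/

/-- GEN: heights in general position exist -/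
def S_GEN : Prop := ∀ (τ : Type) [Fintype τ] (d : ℕ) (v : τ → Fin d → ℝ), ∃ h : τ → ℝ, Gen v h

/-- LP: the cells of the vertices cover the cone up to a null set -/
def S_LP : Prop := ∀ (τ : Type) [Fintype τ] (d : ℕ) (v : τ → Fin d → ℝ) (e : Fin d → ℝ)
  (h : τ → ℝ), (∀ t, 0 < e ⬝ᵥ v t) → Gen v h →
  volume {x | x ∈ cone v Set.univ ∧ ¬ ∃ q, Vert v h q ∧ x ∈ cone v (tight v h q)} = 0

/-- FINV: there are finitely many vertices -/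
def S_FINV : Prop := ∀ (τ : Type) [Fintype τ] (d : ℕ) (v : τ → Fin d → ℝ) (h : τ → ℝ),
  {q | Vert v h q}.Finite

/-- OT: semidiscrete transport (power cells of prescribed masses) -/
def S_OT : Prop := ∀ (d : ℕ) (T : Type) [Fintype T] [Nonempty T] (μ : Measure (Fin d → ℝ))
  [IsFiniteMeasure μ], μ ≪ volume → Integrable (fun x => ‖x‖) μ →
  ∀ (q : T → Fin d → ℝ), Function.Injective q → ∀ m : T → ℝ, (∀ t, 0 < m t) →
  ∑ t, m t = (μ Set.univ).toReal → ∃ c : T → ℝ, ∀ t, (μ (cell q c t)).toReal = m t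

/-- UP1: the inequality for one variable -/
def S_UP1 : Prop := ∀ g : ℝ → ℝ≥0∞, Monotone g →
  4 * ∫⁻ x, g x ^ 4 * ENNReal.ofReal (Real.exp (-(4 * x))) ≤
    (∫⁻ x, g x * ENNReal.ofReal (Real.exp (-x))) ^ 4

/-- UPK: the inequality for up-sets -/
def S_UPK : Prop := ∀ (I : Type) [Fintype I] (U : Set (I → ℝ)), MeasurableSet U →
  (∀ x ∈ U, ∀ y, x ≤ y → y ∈ U) →
  4 ^ (Fintype.card I) * ∫⁻ x in U, ENNReal.ofReal (Real.exp (-(4 * ∑ i, x i))) ≤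
    (∫⁻ x in U, ENNReal.ofReal (Real.exp (-(∑ i, x i)))) ^ 4

/-- MINK: Minkowski's integral inequality for the fourth power -/
def S_MINK : Prop := ∀ (X Y : Type) [MeasurableSpace X] [MeasurableSpace Y] (μ : Measure X)
  (ν : Measure Y) [SigmaFinite μ] [SigmaFinite ν] (f : X × Y → ℝ≥0∞), Measurable f →
  ∫⁻ x, (∫⁻ y, f (x, y) ∂ν) ^ 4 ∂μ ≤ (∫⁻ y, (∫⁻ x, f (x, y) ^ 4 ∂μ) ^ (1 / 4 : ℝ) ∂ν) ^ 4

/-- MIX: the mixed norm inequality -/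
def S_MIX : Prop := ∀ (X Y : Type) [MeasurableSpace X] [MeasurableSpace Y] (μ : Measure X)
  (ν : Measure Y) [SigmaFinite μ] [SigmaFinite ν] (f : X × Y → ℝ≥0∞), Measurable f →
  (∫⁻ x, ∫⁻ y, f (x, y) ^ (8 / 5 : ℝ) ∂ν ∂μ) ^ 5 ≤
    (∫⁻ x, (∫⁻ y, f (x, y) ^ 4 ∂ν) ^ (1 / 4 : ℝ) ∂μ) ^ 4 *
      (∫⁻ y, (∫⁻ x, f (x, y) ^ 4 ∂μ) ^ (1 / 4 : ℝ) ∂ν) ^ 4

/-- UPLW: lower bound of the weight of `upL A` -/
def S_UPLW : Prop := ∀ (I J : Type) [Fintype I] [Fintype J] (A : Set ((I → ℝ) × (J → ℝ))),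
  IsSigmaCompact A →
  ENNReal.ofReal ((5 / 8) ^ (Fintype.card J) * (5 / 2) ^ ((Fintype.card I : ℝ) / 4)) *
    (∫⁻ u : J → ℝ, (∫⁻ x : I → ℝ, A.indicator
      (fun z => ENNReal.ofReal (Real.exp (-(5 / 2 * (∑ i, z.1 i + ∑ j, z.2 j))))) (x, u))
        ^ (1 / 4 : ℝ)) ≤ w (upL A)

/-- CELL: the inequality for one cell in coordinates -/
def S_CELL : Prop := ∀ (I J : Type) [Fintype I] [Fintype J] (A : Set ((I → ℝ) × (J → ℝ))),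
  IsSigmaCompact A →
  kk (Fintype.card I + Fintype.card J) * w A ^ 5 ≤ (w (upL A) * w (upR A)) ^ 4

/-- CELLT: the inequality for one cell in the space -/
def S_CELLT : Prop := ∀ (τ : Type) [Fintype τ] (d : ℕ) (v : τ → Fin d → ℝ) (e : Fin d → ℝ)
  (b T : Set τ) (A : Set (Fin d → ℝ)), (∀ t, 0 < e ⬝ᵥ v t) →
  LinearIndependent ℝ (fun t : T => v t) → Submodule.span ℝ (v '' T) = ⊤ → IsSigmaCompact A →
  kk d * W e A ^ 5 * W e (cone v T) ^ 3 ≤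
    (W e ((5 / 8 : ℝ) • A + cone v (T ∩ b)) * W e ((5 / 8 : ℝ) • A + cone v (T ∩ bᶜ))) ^ 4

/-- POSW: the weight of a simplicial cone is positive and finite -/
def S_POSW : Prop := ∀ (τ : Type) [Fintype τ] (d : ℕ) (v : τ → Fin d → ℝ) (e : Fin d → ℝ)
  (T : Set τ), (∀ t, 0 < e ⬝ᵥ v t) →
  W e (cone v T) ≠ ⊤ ∧ (Submodule.span ℝ (v '' T) = ⊤ → W e (cone v T) ≠ 0) ∧
  Integrable (fun x => ‖x‖)
    ((volume.restrict (cone v T)).withDensity fun x => ENNReal.ofReal (Real.exp (-(e ⬝ᵥ x))))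

/-- SEP: the sets `a A_q + B_q` for different vertices are almost disjoint -/
def S_SEP : Prop := ∀ (τ : Type) [Fintype τ] (d : ℕ) (v : τ → Fin d → ℝ) (h : τ → ℝ)
  (b : Set τ) (T : Type) (q : T → Fin d → ℝ) (c : T → ℝ) (s t : T), q s ≠ q t →
  Vert v h (q s) → Vert v h (q t) →
  volume (((5 / 8 : ℝ) • cell q c s + cone v (tight v h (q s) ∩ b)) ∩
    ((5 / 8 : ℝ) • cell q c t + cone v (tight v h (q t) ∩ b))) = 0

/-- SIGC: sigma-compactness (hence measurability) -/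
def S_SIGC : Prop := ∀ (τ : Type) [Fintype τ] (d : ℕ) (v : τ → Fin d → ℝ) (S T U : Set τ)
  (K : Set (Fin d → ℝ)), IsClosed K →
  IsSigmaCompact (cone v S) ∧ IsSigmaCompact (cone v S ∩ cone v T ∩ K) ∧
  IsSigmaCompact ((5 / 8 : ℝ) • (cone v S ∩ cone v T ∩ K) + cone v U) ∧
  MeasurableSet ((5 / 8 : ℝ) • (cone v S ∩ cone v T ∩ K) + cone v U)

/-- SUMS: Cauchy-Schwarz for the sum over the cells -/
def S_SUMS : Prop := ∀ (T : Type) [Fintype T] (X Y s α : T → ℝ) (k P : ℝ), 0 ≤ k → 0 < P →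
  (∀ t, 0 ≤ X t) → (∀ t, 0 ≤ Y t) → (∀ t, 0 < s t) →
  (∀ t, α t = P * s t / ∑ u, s u) →
  (∀ t, k * α t ^ 5 * s t ^ 3 ≤ (X t * Y t) ^ 4) →
  k * P ^ 5 * (∑ u, s u) ^ 3 ≤ ((∑ t, X t) * ∑ t, Y t) ^ 4

/-- CONE: the two-cone inequality -/
def S_CONE : Prop := ∀ (τ : Type) [Fintype τ] (d : ℕ) (v : τ → Fin d → ℝ) (e : Fin d → ℝ)
  (b : Set τ), (∀ t, 0 < e ⬝ᵥ v t) →
  kk d * W e (cone v b ∩ cone v bᶜ) ^ 5 * W e (cone v Set.univ) ^ 3 ≤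
    (W e (cone v b) * W e (cone v bᶜ)) ^ 4

/-- HOM: the weight of the cone over a body -/
def S_HOM : Prop := ∀ (n : ℕ) (K : Set (Fin n → ℝ)), MeasurableSet K →
  W (Fin.cons 1 0 : Fin (n + 1) → ℝ)
    {x | ∃ s : ℝ, 0 ≤ s ∧ ∃ k ∈ K, x = Fin.cons s (s • k)} =
    ENNReal.ofReal (n.factorial : ℝ) * volume K

/-- POLY: the two-body inequality for polytopes -/
def S_POLY : Prop := ∀ (n : ℕ) (F G : Finset (Fin n → ℝ)),
  (interior (convexHull ℝ (F : Set (Fin n → ℝ)) ∩ convexHull ℝ (G : Set (Fin n → ℝ)))).Nonempty →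
  kk (n + 1) * volume (convexHull ℝ (F : Set (Fin n → ℝ)) ∩ convexHull ℝ (G : Set (Fin n → ℝ))) ^ 5 *
    volume (convexHull ℝ ((F : Set (Fin n → ℝ)) ∪ G)) ^ 3 ≤
    (volume (convexHull ℝ (F : Set (Fin n → ℝ))) * volume (convexHull ℝ (G : Set (Fin n → ℝ)))) ^ 4

/-- TWO: the inequality for a body and its reflection -/
def S_TWO : Prop := ∀ (n : ℕ) (K : Set (Fin n → ℝ)), Bd K →
  kk (n + 1) * volume (K ∩ -K) ^ 5 * volume (convexHull ℝ (K ∪ -K)) ^ 3 ≤ volume K ^ 8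

/-- RS: the Rogers-Shephard inequality for `conv (K ∪ -K)` -/
def S_RS : Prop := ∀ (n : ℕ) (K : Set (Fin n → ℝ)), Bd K →
  volume (convexHull ℝ (K ∪ -K)) ≤ 2 ^ n * volume K

/-- PB: the polar body -/
def S_PB : Prop := ∀ (n : ℕ) (K : Set (Fin n → ℝ)), Bd K → Bd (pol K) ∧
  pol (K ∩ -K) ⊆ convexHull ℝ (pol K ∪ -pol K) ∧ pol (convexHull ℝ (K ∪ -K)) ⊆ pol K ∩ -pol K ∧
  Bd (K ∩ -K) ∧ Bd (convexHull ℝ (K ∪ -K))

/-- SYM: symmetric Mahler (library) -/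
def S_SYM : Prop := ∀ (n : ℕ) (K : Set (Fin n → ℝ)), Bd K → (∀ x ∈ K, -x ∈ K) →
  ENNReal.ofReal (4 ^ n / n.factorial) ≤ volume K * volume (pol K)

/-- EXPH: the volume of the polar body and the support function -/
def S_EXPH : Prop := ∀ (n : ℕ) (K : Set (Fin n → ℝ)), Bd K →
  ENNReal.ofReal (n.factorial : ℝ) * volume (pol K) ≤
    ∫⁻ y : Fin n → ℝ, ENNReal.ofReal (Real.exp (-(hs K y)))

/-- PROD: the bound up to a constant -/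
def S_PROD : Prop := ∀ (n : ℕ) (K : Set (Fin n → ℝ)), Bd K →
  ENNReal.ofReal ((3125 / 8192) * (5 / 2) ^ n) ≤ Mi K

/-- TENS: powers of a body -/
def S_TENS : Prop := ∀ (n N : ℕ) (K : Set (Fin n → ℝ)), Bd K →
  ∃ L : Set (Fin (N * n) → ℝ), Bd L ∧ Mi L = Mi K ^ N

/-- MAIN: the bound -/
def S_MAIN : Prop := ∀ (n : ℕ) (K : Set (Fin n → ℝ)), Bd K →
  ENNReal.ofReal ((5 / 2) ^ n) ≤ Mi K

end MH

end
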