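import Pool.Agent.Helper64.MH.Defs

/-!
# Small parts: SUMS, SEP, SIGC, FINV
-/

set_option autoImplicit false

noncomputable section

namespace MH

open MeasureTheory Matrix Set
open scoped ENNReal Pointwise

theorem sums : S_SUMS := by
  intro T _ X Y s α k P hk hP hX hY hs hα h
  by_cases hT : Nonempty T
  swap
  · rw [not_nonempty_iff] at hT
    simp
  set S : ℝ := ∑ u, s u with hS
  have hSpos : 0 < S := Finset.sum_pos (fun t _ => hs t) Finset.univ_nonempty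
  set c : ℝ := k * (P / S) ^ 5 with hc
  have hc0 : 0 ≤ c := by positivity
  set r : ℝ := c ^ (1 / 8 : ℝ) with hr
  have hr0 : 0 ≤ r := Real.rpow_nonneg hc0 _
  have hr8 : r ^ 8 = c := by
    rw [hr, ← Real.rpow_natCast, ← Real.rpow_mul hc0]
    norm_num
  have h1 : ∀ t, r * s t ≤ Real.sqrt (X t) * Real.sqrt (Y t) := by
    intro t
    have h2 := h t
    rw [hα t] at h2
    have h3 : (r * s t) ^ 8 ≤ (Real.sqrt (X t) * Real.sqrt (Y t)) ^ 8 := by
      have e1 : (Real.sqrt (X t) * Real.sqrt (Y t)) ^ 8 = (X t * Y t) ^ 4 := by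
        rw [mul_pow, mul_pow]
        have : ∀ x : ℝ, 0 ≤ x → Real.sqrt x ^ 8 = x ^ 4 := by
          intro x hx
          calc Real.sqrt x ^ 8 = (Real.sqrt x ^ 2) ^ 4 := by ring
            _ = x ^ 4 := by rw [Real.sq_sqrt hx]
        rw [this _ (hX t), this _ (hY t)]
      rw [e1, mul_pow, hr8, hc]
      refine le_trans (le_of_eq ?_) h2
      rw [div_pow, div_pow, mul_pow]
      field_simp
    exact le_of_pow_le_pow_left₀ (by norm_num) (by positivity) h3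
  have h4 : r * S ≤ Real.sqrt (∑ t, X t) * Real.sqrt (∑ t, Y t) := by
    calc r * S = ∑ t, r * s t := by rw [hS, Finset.mul_sum]
      _ ≤ ∑ t, Real.sqrt (X t) * Real.sqrt (Y t) := Finset.sum_le_sum fun t _ => h1 t
      _ ≤ Real.sqrt (∑ t, X t) * Real.sqrt (∑ t, Y t) :=
          Real.sum_sqrt_mul_sqrt_le _ hX hY
  have hX0 : 0 ≤ ∑ t, X t := Finset.sum_nonneg fun t _ => hX t
  have hY0 : 0 ≤ ∑ t, Y t := Finset.sum_nonneg fun t _ => hY t
  have h5 : (r * S) ^ 8 ≤ (Real.sqrt (∑ t, X t) * Real.sqrt (∑ t, Y t)) ^ 8 :=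
    pow_le_pow_left₀ (by positivity) h4 8
  have e2 : (Real.sqrt (∑ t, X t) * Real.sqrt (∑ t, Y t)) ^ 8 =
      ((∑ t, X t) * ∑ t, Y t) ^ 4 := by
    have : ∀ x : ℝ, 0 ≤ x → Real.sqrt x ^ 8 = x ^ 4 := by
      intro x hx
      calc Real.sqrt x ^ 8 = (Real.sqrt x ^ 2) ^ 4 := by ring
        _ = x ^ 4 := by rw [Real.sq_sqrt hx]
    rw [mul_pow, this _ hX0, this _ hY0, mul_pow]
  have e3 : (r * S) ^ 8 = k * P ^ 5 * S ^ 3 := by
    rw [mul_pow, hr8, hc, div_pow]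
    field_simp
  rw [e2, e3] at h5
  exact h5

lemma hyperplane_null {d : ℕ} {p : Fin d → ℝ} (hp : p ≠ 0) (r : ℝ) :
    volume {z : Fin d → ℝ | p ⬝ᵥ z = r} = 0 := by
  by_cases hne : ({z : Fin d → ℝ | p ⬝ᵥ z = r}).Nonempty
  swap
  · rw [not_nonempty_iff_eq_empty] at hne
    rw [hne]; simp
  obtain ⟨z0, hz0⟩ := hne
  let V : Submodule ℝ (Fin d → ℝ) := LinearMap.ker (dotProductBilin ℝ ℝ p : (Fin d → ℝ) →ₗ[ℝ] ℝ)
  have hV : V ≠ ⊤ := by
    intro hh
    have : p ∈ V := by rw [hh]; trivial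
    have h2 : p ⬝ᵥ p = 0 := this
    exact hp (dotProduct_self_eq_zero.1 h2)
  have h0 := Measure.addHaar_submodule (volume : Measure (Fin d → ℝ)) V hV
  have e : {z : Fin d → ℝ | p ⬝ᵥ z = r} = (fun z => z + (-z0)) ⁻¹' (V : Set (Fin d → ℝ)) := by
    ext z
    have : (z + (-z0) ∈ V) ↔ p ⬝ᵥ (z + (-z0)) = 0 := Iff.rfl
    rw [mem_preimage, SetLike.mem_coe, this, dotProduct_add, dotProduct_neg]
    have hz : p ⬝ᵥ z0 = r := hz0
    rw [hz]
    constructor
    · intro h; have h' : p ⬝ᵥ z = r := h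
      rw [h']; ring
    · intro h; show p ⬝ᵥ z = r; linarith
  rw [e, measure_preimage_add_right, h0]

theorem sep : S_SEP := by
  intro τ _ d v h b T q c s t hst hs ht
  have hp : q s - q t ≠ 0 := sub_ne_zero.2 hst
  refine measure_mono_null ?_ (hyperplane_null hp (5 / 8 * (c t - c s)))
  -- one side
  have key : ∀ (s t : T), Vert v h (q s) → Vert v h (q t) → ∀ z ∈
      ((5 / 8 : ℝ) • cell q c s + cone v (tight v h (q s) ∩ b)),
      (q s - q t) ⬝ᵥ z ≤ 5 / 8 * (c t - c s) := by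
    rintro s t hs ht _ ⟨_, ⟨x, hx, rfl⟩, y, ⟨l, h1, h2, h3⟩, rfl⟩
    have hx1 := hx t
    have hy1 : q s ⬝ᵥ y = ∑ i, l i * h i := by
      rw [h3, dotProduct_sum]
      refine Finset.sum_congr rfl fun i _ => ?_
      rw [dotProduct_smul, smul_eq_mul]
      by_cases hi : i ∈ tight v h (q s) ∩ b
      · have : q s ⬝ᵥ v i = h i := hi.1
        rw [this]
      · rw [h2 i hi]; ring
    have hy2 : ∑ i, l i * h i ≤ q t ⬝ᵥ y := by
      rw [h3, dotProduct_sum]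
      refine Finset.sum_le_sum fun i _ => ?_
      rw [dotProduct_smul, smul_eq_mul]
      exact mul_le_mul_of_nonneg_left (ht.1 i) (h1 i)
    show (q s - q t) ⬝ᵥ ((5 / 8 : ℝ) • x + y) ≤ _
    rw [dotProduct_add, dotProduct_smul, smul_eq_mul, sub_dotProduct, sub_dotProduct]
    linarith
  rintro z ⟨hz1, hz2⟩
  have a1 := key s t hs ht z hz1
  have a2 := key t s ht hs z hz2
  show (q s - q t) ⬝ᵥ z = _
  rw [sub_dotProduct] at a1 a2 ⊢
  linarith

theorem sigc : S_SIGC := by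
  intro τ _ d v S T U K hK
  have hcone : ∀ S : Set τ, IsSigmaCompact (cone v S) := by
    intro S
    have e : cone v S = (fun l : τ → ℝ => ∑ t, l t • v t) ''
        {l | (∀ t, 0 ≤ l t) ∧ ∀ t, t ∉ S → l t = 0} := by
      ext x
      constructor
      · rintro ⟨l, h1, h2, h3⟩
        exact ⟨l, ⟨h1, h2⟩, h3.symm⟩
      · rintro ⟨l, ⟨h1, h2⟩, h3⟩
        exact ⟨l, h1, h2, h3.symm⟩
    rw [e]
    refine IsSigmaCompact.image (by fun_prop) ?_
    have hcl : IsClosed {l : τ → ℝ | (∀ t, 0 ≤ l t) ∧ ∀ t, t ∉ S → l t = 0} := by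
      have : {l : τ → ℝ | (∀ t, 0 ≤ l t) ∧ ∀ t, t ∉ S → l t = 0} =
          (⋂ t, {l | 0 ≤ l t}) ∩ ⋂ t, ⋂ (_ : t ∉ S), {l | l t = 0} := by
        ext l; simp
      rw [this]
      refine IsClosed.inter (isClosed_iInter fun t => isClosed_le continuous_const (by fun_prop)) ?_
      exact isClosed_iInter fun t => isClosed_iInter fun _ => isClosed_eq (by fun_prop) continuous_const
    exact isSigmaCompact_univ.of_isClosed_subset hcl (subset_univ _)
  have hinter : ∀ {A B : Set (Fin d → ℝ)}, IsSigmaCompact A → IsSigmaCompact B →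
      IsSigmaCompact (A ∩ B) := by
    rintro A B ⟨f, hf, rfl⟩ ⟨g, hg, rfl⟩
    have : (⋃ n, f n) ∩ (⋃ n, g n) = ⋃ p : ℕ × ℕ, f p.1 ∩ g p.2 := by
      ext x; simp only [mem_inter_iff, mem_iUnion, Prod.exists]
      constructor
      · rintro ⟨⟨i, hi⟩, j, hj⟩; exact ⟨i, j, hi, hj⟩
      · rintro ⟨i, j, hi, hj⟩; exact ⟨⟨i, hi⟩, j, hj⟩
    rw [this]
    exact isSigmaCompact_iUnion _ fun p => ((hf p.1).inter (hg p.2)).isSigmaCompact
  have h2 : IsSigmaCompact (cone v S ∩ cone v T ∩ K) :=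
    hinter (hinter (hcone S) (hcone T))
      (isSigmaCompact_univ.of_isClosed_subset hK (subset_univ _))
  have h3 : IsSigmaCompact ((5 / 8 : ℝ) • (cone v S ∩ cone v T ∩ K) + cone v U) := by
    obtain ⟨f, hf, hf'⟩ := h2
    obtain ⟨g, hg, hg'⟩ := hcone U
    have e : (5 / 8 : ℝ) • (cone v S ∩ cone v T ∩ K) + cone v U =
        ⋃ p : ℕ × ℕ, ((5 / 8 : ℝ) • f p.1 + g p.2) := by
      rw [← hf', ← hg']
      ext x
      simp only [mem_add, mem_smul_set, mem_iUnion, Prod.exists]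
      constructor
      · rintro ⟨_, ⟨y, ⟨i, hi⟩, rfl⟩, z, ⟨j, hj⟩, rfl⟩
        exact ⟨i, j, _, ⟨y, hi, rfl⟩, z, hj, rfl⟩
      · rintro ⟨i, j, _, ⟨y, hi, rfl⟩, z, hj, rfl⟩
        exact ⟨_, ⟨y, ⟨i, hi⟩, rfl⟩, z, ⟨j, hj⟩, rfl⟩
    rw [e]
    exact isSigmaCompact_iUnion _ fun p => (((hf p.1).smul _).add (hg p.2)).isSigmaCompact
  refine ⟨hcone S, h2, h3, ?_⟩
  obtain ⟨f, hf, hf'⟩ := h3
  rw [← hf']
  exact MeasurableSet.iUnion fun n => (hf n).measurableSet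

theorem finv : S_FINV := by
  intro τ _ d v h
  refine Set.Finite.of_injOn (f := fun q => tight v h q) (t := univ) (fun _ _ => mem_univ _) ?_
    (Set.toFinite _)
  intro p hp q hq hpq
  have hpq' : tight v h p = tight v h q := hpq
  have hspan := hp.2
  -- p and q agree on the span
  let f : (Fin d → ℝ) →ₗ[ℝ] ℝ := dotProductBilin ℝ ℝ p
  let g : (Fin d → ℝ) →ₗ[ℝ] ℝ := dotProductBilin ℝ ℝ q
  have hfg : f = g := by
    refine LinearMap.ext_on (s := v '' tight v h p) hspan ?_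
    rintro _ ⟨t, ht, rfl⟩
    have h1 : p ⬝ᵥ v t = h t := ht
    have h2 : q ⬝ᵥ v t = h t := by
      have : t ∈ tight v h q := hpq' ▸ ht
      exact this
    show p ⬝ᵥ v t = q ⬝ᵥ v t
    rw [h1, h2]
  ext i
  have := LinearMap.congr_fun hfg (Pi.single i 1)
  have h3 : p ⬝ᵥ (Pi.single i 1) = q ⬝ᵥ (Pi.single i 1) := this
  simpa using h3

end MH

end
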