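import Pool.Agent.Helper64.MH.Cone
import Pool.Agent.Helper64.MH.Small
import Pool.Agent.Helper9.MH.GEN
import Pool.Agent.Helper9.MH.UPK
import Pool.Agent.Helper10.MH.UP1
import Pool.Agent.Helper32.MH.TWO
import Pool.Agent.Helper47.MH.HOM
import Pool.Agent.Helper47.MH.POSW
import Pool.Agent.Helper71.MH.CELL
import Pool.Agent.Helper71.MH.MINK
import Pool.Agent.Helper71.MH.MIX
import Pool.Agent.Helper79.MH.CELLT
import Pool.Agent.Helper88.MH.POLY
import Pool.Agent.Helper88.MH.RS
import Pool.Agent.Helper93.MH.LP
import Pool.Agent.Helper93.MH.UPLW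
import Pool.Agent.H67.MH.OT

/-!
# The two-cone inequality and the two-body inequality, without hypotheses
-/

set_option autoImplicit false

namespace MH

theorem cone_all : S_CONE :=
  cone_ineq MH.Helper9.gen_thm MH.Helper93.LP finv MH.H67.ot
    (MH.H79.cellt_thm (MH.Helper71.cell (MH.Helper93.UPLW (MH.Helper9.upk_thm MH.Helper10.up1))
      (MH.Helper71.mix MH.Helper71.mink)))
    MH.Helper47.posw sep sigc sums

theorem poly_all : S_POLY := MH.Helper88P.POLY cone_all MH.Helper47.hom

theorem two_all : S_TWO := MH.Helper32.two poly_all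

end MH
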